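import Pool.Agent.W623.SecH.Stm2

/-!
# Project SH, parts TAMEKT and REPKT: the rational function field over the constants
-/

open Polynomial

namespace Pool.Agent.W351.SH

open Pool.Agent.W623.SecC Pool.Agent.W623.SecH

universe u v w

lemma isU_iff {K : Type*} [Field K] (V : ValuationSubring K) (x : K) :
    IsU V x ↔ V.valuation x = 1 := by
  constructor
  · rintro ⟨h0, h1, h2⟩
    rw [← ValuationSubring.valuation_le_one_iff] at h1 h2
    rw [map_inv₀] at h2
    have h3 : V.valuation x ≠ 0 := (Valuation.ne_zero_iff _).2 h0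
    refine le_antisymm h1 ?_
    by_contra h
    push Not at h
    have h4 : 1 < (V.valuation x)⁻¹ := (one_lt_inv₀ (zero_lt_iff.2 h3)).2 h
    exact absurd h2 (not_le.2 h4)
  · intro h
    have h0 : x ≠ 0 := by
      intro h0
      rw [h0, map_zero] at h
      exact zero_ne_one h
    refine ⟨h0, ?_, ?_⟩
    · rw [← ValuationSubring.valuation_le_one_iff, h]
    · rw [← ValuationSubring.valuation_le_one_iff, map_inv₀, h, inv_one]

lemma eval_mem {A : Type u} {k : Type v} [Field A] [Field k] (ι : A →+* k) (t : k)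
    (V : ValuationSubring k) (hc : ∀ c, ι c ∈ V) (ht : t ∈ V) (p : A[X]) : p.eval₂ ι t ∈ V := by
  rw [eval₂_eq_sum_range]
  exact V.toSubring.sum_mem fun i _ => V.mul_mem _ _ (hc _) (V.toSubring.pow_mem ht i)

lemma unit_part {A : Type u} {k : Type v} [Field A] [Field k] (ι : A →+* k) (t : k) (α : A)
    (V : ValuationSubring k) (hc : ∀ c, ι c ∈ V) (ht : t - ι α ∈ V.nonunits) (p : A[X])
    (hp : p.eval α ≠ 0) : V.valuation (p.eval₂ ι t) = 1 := by
  have htV : t ∈ V := by
    have h1 : t - ι α ∈ V := V.nonunits_subset ht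
    have := V.add_mem _ _ h1 (hc α)
    rwa [sub_add_cancel] at this
  obtain ⟨r, hr⟩ : (X - C α) ∣ p - C (p.eval α) := by
    rw [dvd_iff_isRoot]
    simp
  have h1 : p = C (p.eval α) + (X - C α) * r := by rw [← hr]; ring
  have h2 : p.eval₂ ι t = ι (p.eval α) + (t - ι α) * r.eval₂ ι t := by
    conv_lhs => rw [h1]
    rw [eval₂_add, eval₂_mul, eval₂_sub, eval₂_C, eval₂_C, eval₂_X]
  have h3 : V.valuation (ι (p.eval α)) = 1 := by
    rw [← isU_iff]
    refine ⟨(_root_.map_ne_zero ι).2 hp, hc _, ?_⟩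
    rw [← map_inv₀]
    exact hc _
  have h4 : V.valuation ((t - ι α) * r.eval₂ ι t) < 1 := by
    rw [map_mul]
    have h5 : V.valuation (t - ι α) < 1 := (ValuationSubring.mem_nonunits_iff V).1 ht
    have h6 : V.valuation (r.eval₂ ι t) ≤ 1 :=
      (ValuationSubring.valuation_le_one_iff _ _).2 (eval_mem ι t V hc htV r)
    exact mul_lt_one_of_lt_of_le h5 h6
  rw [h2, Valuation.map_add_eq_of_lt_left _ (by rw [h3]; exact h4), h3]

theorem tamekt : TAMEKT.{u, v} := by
  intro A k _ _ ι t htr P Q hP hQ α V hc ht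
  have hs : t - ι α ≠ 0 := by
    have := htr (X - Polynomial.C α) (X_sub_C_ne_zero α)
    simpa using this
  obtain ⟨P1, hP1, hP2⟩ := exists_eq_pow_rootMultiplicity_mul_and_not_dvd P hP α
  obtain ⟨Q1, hQ1, hQ2⟩ := exists_eq_pow_rootMultiplicity_mul_and_not_dvd Q hQ α
  rw [dvd_iff_isRoot] at hP2 hQ2
  set m := rootMultiplicity α P
  set n := rootMultiplicity α Q
  have vP := unit_part ι t α V hc ht P1 hP2
  have vQ := unit_part ι t α V hc ht Q1 hQ2
  have eP : P.eval₂ ι t = (t - ι α) ^ m * P1.eval₂ ι t := by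
    conv_lhs => rw [hP1]
    rw [eval₂_mul, eval₂_pow, eval₂_sub, eval₂_C, eval₂_X]
  have eQ : Q.eval₂ ι t = (t - ι α) ^ n * Q1.eval₂ ι t := by
    conv_lhs => rw [hQ1]
    rw [eval₂_mul, eval₂_pow, eval₂_sub, eval₂_C, eval₂_X]
  have hQ0 : Q1.eval₂ ι t ≠ 0 := by
    intro h
    rw [h, map_zero] at vQ
    exact zero_ne_one vQ
  refine ⟨(m : ℤ) - n, ?_⟩
  rw [isU_iff]
  have e : P.eval₂ ι t / Q.eval₂ ι t / (t - ι α) ^ ((m : ℤ) - n) =
      P1.eval₂ ι t / Q1.eval₂ ι t := by
    rw [eP, eQ, zpow_sub₀ hs, zpow_natCast, zpow_natCast]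
    have h1 : (t - ι α) ^ m ≠ 0 := pow_ne_zero _ hs
    have h2 : (t - ι α) ^ n ≠ 0 := pow_ne_zero _ hs
    field_simp
  rw [e, map_div₀, vP, vQ, div_one]

theorem repkt : REPKT.{u, w} := by
  intro K k kb _ _ _ _ _ _ _ t htop z hz
  set t' := algebraMap k kb t with ht'
  set ι := algebraMap (algebraicClosure K kb) kb with hι
  suffices h : ∃ P Q : (algebraicClosure K kb)[X], Q.eval₂ ι t' ≠ 0 ∧
      z = P.eval₂ ι t' / Q.eval₂ ι t' by
    obtain ⟨P, Q, h1, h2⟩ := h
    refine ⟨P, Q, ?_, h1, h2⟩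
    rintro rfl
    simp at h1
  induction hz using IntermediateField.adjoin_induction with
  | mem a ha =>
    have ha' : a ∈ algebraicClosure K kb := mem_algebraicClosure_iff.2 ha
    refine ⟨C ⟨a, ha'⟩, 1, by simp, ?_⟩
    rw [eval₂_C, eval₂_one, div_one]
    rfl
  | algebraMap x =>
    have hx : x ∈ IntermediateField.adjoin K {t} := by rw [htop]; exact IntermediateField.mem_top
    rw [IntermediateField.mem_adjoin_simple_iff] at hx
    obtain ⟨r, s, hrs⟩ := hx
    have key : ∀ q : K[X], (q.map (algebraMap K (algebraicClosure K kb))).eval₂ ι t' =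
        algebraMap k kb (aeval t q) := by
      intro q
      rw [eval₂_map, ← aeval_algebraMap_apply, aeval_def]
      congr 1
    by_cases hs : aeval t s = 0
    · refine ⟨0, 1, by simp, ?_⟩
      rw [hrs, hs, div_zero, map_zero]
      simp
    · refine ⟨r.map (algebraMap K _), s.map (algebraMap K _), ?_, ?_⟩
      · rw [key]
        exact (_root_.map_ne_zero _).2 hs
      · rw [key, key, hrs, map_div₀]
  | add x y _ _ hx hy =>
    obtain ⟨P, Q, h1, h2⟩ := hx
    obtain ⟨P', Q', h1', h2'⟩ := hy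
    refine ⟨P * Q' + P' * Q, Q * Q', ?_, ?_⟩
    · rw [eval₂_mul]; exact mul_ne_zero h1 h1'
    · rw [eval₂_add, eval₂_mul, eval₂_mul, eval₂_mul, h2, h2']
      field_simp
  | inv x _ hx =>
    obtain ⟨P, Q, h1, h2⟩ := hx
    by_cases hP : P.eval₂ ι t' = 0
    · refine ⟨0, 1, by simp, ?_⟩
      rw [h2, hP, zero_div, inv_zero]
      simp
    · refine ⟨Q, P, hP, ?_⟩
      rw [h2, inv_div]
  | mul x y _ _ hx hy =>
    obtain ⟨P, Q, h1, h2⟩ := hx
    obtain ⟨P', Q', h1', h2'⟩ := hy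
    refine ⟨P * P', Q * Q', ?_, ?_⟩
    · rw [eval₂_mul]; exact mul_ne_zero h1 h1'
    · rw [eval₂_mul, eval₂_mul, h2, h2', div_mul_div_comm]

end Pool.Agent.W351.SH
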