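import Pool.Agent.W580.SH.StmA

set_option autoImplicit false

/-! Project SH, part AB2: coordinates in the context of a bad row. -/

namespace Pool.Agent.W351.SH

open Finset Pool.Agent.W580.SH

theorem crd : S_CRD := by
  intro R f v κ hdet w
  obtain ⟨Mx, hMx⟩ : ∃ Mx : Matrix (Fin 5) (Fin 5) ℝ,
    Mx = Matrix.of fun a b => fv f v b (κ a) := ⟨_, rfl⟩
  have hdet' : Mx.det ≠ 0 := by rw [hMx]; exact hdet
  have hu : IsUnit Mx.det := isUnit_iff_ne_zero.2 hdet'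
  have hexp : ∀ (ξ : Fin 2 → ℝ) (η : Fin 3 → ℝ) (b : Fin 5),
      (Mx.mulVec ![ξ 0, ξ 1, η 0, η 1, η 2]) b =
        ∑ a, ξ a * f a (κ b) + ∑ k, η k * v k (κ b) := by
    intro ξ η b
    rw [hMx]
    simp [Matrix.mulVec, dotProduct, Fin.sum_univ_succ, fv]
    ring
  obtain ⟨c, hc⟩ : ∃ c : Fin 5 → ℝ, Mx.mulVec c = fun b => w (κ b) := by
    refine ⟨Mx⁻¹.mulVec (fun b => w (κ b)), ?_⟩
    rw [Matrix.mulVec_mulVec, Matrix.mul_nonsing_inv _ hu, Matrix.one_mulVec]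
  have hcv : (![(![c 0, c 1] : Fin 2 → ℝ) 0, (![c 0, c 1] : Fin 2 → ℝ) 1,
      (![c 2, c 3, c 4] : Fin 3 → ℝ) 0, (![c 2, c 3, c 4] : Fin 3 → ℝ) 1,
      (![c 2, c 3, c 4] : Fin 3 → ℝ) 2] : Fin 5 → ℝ) = c := by
    funext i
    fin_cases i <;> rfl
  refine ⟨![c 0, c 1], ![c 2, c 3, c 4], ?_, ?_⟩
  · intro b
    rw [← hexp, hcv, hc]
  · intro ξ' η' h'
    have h1 : Mx.mulVec ![ξ' 0, ξ' 1, η' 0, η' 1, η' 2] = Mx.mulVec c := by
      rw [hc]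
      funext b
      rw [hexp]
      exact (h' b).symm
    have h2 := congrArg (Mx⁻¹.mulVec) h1
    rw [Matrix.mulVec_mulVec, Matrix.mulVec_mulVec, Matrix.nonsing_inv_mul _ hu,
      Matrix.one_mulVec, Matrix.one_mulVec] at h2
    constructor
    · funext i
      fin_cases i
      · exact congrFun h2 0
      · exact congrFun h2 1
    · funext i
      fin_cases i
      · exact congrFun h2 2
      · exact congrFun h2 3
      · exact congrFun h2 4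

/-- coordinates of `σ f_a + τ v_k` -/
def cq (a : Fin 2) (k : Fin 3) (σ τ : ℝ) : Fin 5 → ℝ :=
  ![if a = 0 then σ else 0, if a = 1 then σ else 0, if k = 0 then τ else 0,
    if k = 1 then τ else 0, if k = 2 then τ else 0]

/-- the matrix of coordinates -/
def MU (ξ : Fin 2 → ℝ) (η : Fin 3 → ℝ) (A : Fin 4 → Fin 2) (B : Fin 4 → Fin 3)
    (s t : Fin 4 → ℝ) : Matrix (Fin 5) (Fin 5) ℝ :=
  Matrix.of (fun a b => (Fin.cons ((![ξ 0, ξ 1, η 0, η 1, η 2] : Fin 5 → ℝ) a)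
    (fun j => cq (A j) (B j) (s j) (t j) a) : Fin 5 → ℝ) b)

theorem mn_congr {R : Type} {k : ℕ} (r : Fin k → R) (c c' : Fin k → (R → ℝ))
    (h : ∀ a b, c b (r a) = c' b (r a)) : mn r c = mn r c' := by
  unfold mn
  congr 1
  ext a b
  exact h a b

theorem cq_sum {R : Type} (f : Fin 2 → (R → ℝ)) (v : Fin 3 → (R → ℝ)) (a : Fin 2) (k : Fin 3)
    (σ τ : ℝ) : ∑ b, cq a k σ τ b • fv f v b = σ • f a + τ • v k := by
  fin_cases a <;> fin_cases k <;> simp [cq, fv, Fin.sum_univ_succ]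

theorem mn_Q (hL : S_LIN) {R : Type} (f : Fin 2 → (R → ℝ)) (v : Fin 3 → (R → ℝ))
    (κ : Fin 5 → R) (w : R → ℝ) (ξ : Fin 2 → ℝ) (η : Fin 3 → ℝ) (hw : Crd f v κ w ξ η)
    (A : Fin 4 → Fin 2) (B : Fin 4 → Fin 3) (s t : Fin 4 → ℝ) :
    mn κ (Fin.cons w (fun j => s j • f (A j) + t j • v (B j)) : Fin 5 → (R → ℝ)) =
      mn κ (fv f v) * (MU ξ η A B s t).det := by
  rw [← hL R 5 κ (fv f v) (MU ξ η A B s t)]
  refine mn_congr _ _ _ ?_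
  intro a b
  refine Fin.cases ?_ (fun j => ?_) b
  · rw [Fin.cons_zero, hw a]
    simp [MU, fv, Fin.sum_univ_succ]
    ring
  · rw [Fin.cons_succ]
    have h1 : (∑ a, MU ξ η A B s t a j.succ • fv f v a) =
        ∑ a, cq (A j) (B j) (s j) (t j) a • fv f v a := rfl
    rw [h1, cq_sum]

theorem keyA (hL : S_LIN) {R : Type} (f : Fin 2 → (R → ℝ)) (v : Fin 3 → (R → ℝ))
    (κ : Fin 5 → R) (w : R → ℝ) (ξ : Fin 2 → ℝ) (η : Fin 3 → ℝ) (hw : Crd f v κ w ξ η)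
    (h1 : |mn κ (fv f v)| = 1 / 4)
    (hq : ∀ q : Fin 4 → (R → ℝ), (∀ j, q j ∈ QV f v) →
      |mn κ (Fin.cons w q : Fin 5 → (R → ℝ))| ≤ 1)
    (A : Fin 4 → Fin 2) (B : Fin 4 → Fin 3) (s t : Fin 4 → ℝ)
    (hs : ∀ j, s j = 1 ∨ s j = -1) (ht : ∀ j, t j = 1 ∨ t j = -1) :
    |(MU ξ η A B s t).det| ≤ 4 := by
  have h2 := hq (fun j => s j • f (A j) + t j • v (B j))
    (fun j => ⟨A j, B j, s j, t j, hs j, ht j, rfl⟩)
  rw [mn_Q hL f v κ w ξ η hw, abs_mul, h1] at h2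
  linarith

theorem keyB (hL : S_LIN) {R : Type} (f : Fin 2 → (R → ℝ)) (v : Fin 3 → (R → ℝ))
    (κ : Fin 5 → R) (w : R → ℝ) (ξ : Fin 2 → ℝ) (η : Fin 3 → ℝ) (hw : Crd f v κ w ξ η)
    (h1 : |mn κ (fv f v)| = 1 / 4)
    (hq : ∀ q : Fin 4 → (R → ℝ), (∀ j, q j ∈ QV f v) →
      ∃ n : ℤ, 2 * mn κ (Fin.cons w q : Fin 5 → (R → ℝ)) = n)
    (A : Fin 4 → Fin 2) (B : Fin 4 → Fin 3) (s t : Fin 4 → ℝ)
    (hs : ∀ j, s j = 1 ∨ s j = -1) (ht : ∀ j, t j = 1 ∨ t j = -1) :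
    ∃ n : ℤ, (MU ξ η A B s t).det = 2 * n := by
  obtain ⟨n, h2⟩ := hq (fun j => s j • f (A j) + t j • v (B j))
    (fun j => ⟨A j, B j, s j, t j, hs j, ht j, rfl⟩)
  rw [mn_Q hL f v κ w ξ η hw] at h2
  rcases (abs_eq (by norm_num : (0 : ℝ) ≤ 1 / 4)).1 h1 with h3 | h3
  · refine ⟨n, ?_⟩
    rw [h3] at h2
    linarith
  · refine ⟨-n, ?_⟩
    rw [h3] at h2
    push_cast
    linarith

section Dets

variable (ξ : Fin 2 → ℝ) (η : Fin 3 → ℝ)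

theorem det10 : (MU ξ η ![0, 0, 1, 1] ![1, 1, 2, 2] ![1, 1, 1, 1] ![1, -1, 1, -1]).det =
    -4 * η 0 := by
  rw [Matrix.det_succ_column_zero]
  simp [MU, cq, Fin.sum_univ_succ, Matrix.det_succ_row_zero, Fin.succAbove]
  ring

theorem det11 : (MU ξ η ![0, 0, 1, 1] ![0, 0, 2, 2] ![1, 1, 1, 1] ![1, -1, 1, -1]).det =
    4 * η 1 := by
  rw [Matrix.det_succ_column_zero]
  simp [MU, cq, Fin.sum_univ_succ, Matrix.det_succ_row_zero, Fin.succAbove]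
  ring

theorem det12 : (MU ξ η ![0, 0, 1, 1] ![0, 0, 1, 1] ![1, 1, 1, 1] ![1, -1, 1, -1]).det =
    -4 * η 2 := by
  rw [Matrix.det_succ_column_zero]
  simp [MU, cq, Fin.sum_univ_succ, Matrix.det_succ_row_zero, Fin.succAbove]
  ring

theorem det200 (s s' : ℝ) :
    (MU ξ η ![1, 1, 0, 0] ![0, 0, 1, 2] ![1, 1, 1, 1] ![1, -1, s, s']).det =
      -(2 * (s * s' * ξ 0 - s' * η 1 - s * η 2)) := by
  rw [Matrix.det_succ_column_zero]
  simp [MU, cq, Fin.sum_univ_succ, Matrix.det_succ_row_zero, Fin.succAbove]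
  ring

theorem det201 (s s' : ℝ) :
    (MU ξ η ![1, 1, 0, 0] ![1, 1, 0, 2] ![1, 1, 1, 1] ![1, -1, s, s']).det =
      2 * (s * s' * ξ 0 - s' * η 0 - s * η 2) := by
  rw [Matrix.det_succ_column_zero]
  simp [MU, cq, Fin.sum_univ_succ, Matrix.det_succ_row_zero, Fin.succAbove]
  ring

theorem det202 (s s' : ℝ) :
    (MU ξ η ![1, 1, 0, 0] ![2, 2, 0, 1] ![1, 1, 1, 1] ![1, -1, s, s']).det =
      -(2 * (s * s' * ξ 0 - s' * η 0 - s * η 1)) := by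
  rw [Matrix.det_succ_column_zero]
  simp [MU, cq, Fin.sum_univ_succ, Matrix.det_succ_row_zero, Fin.succAbove]
  ring

theorem det210 (s s' : ℝ) :
    (MU ξ η ![0, 0, 1, 1] ![0, 0, 1, 2] ![1, 1, 1, 1] ![1, -1, s, s']).det =
      2 * (s * s' * ξ 1 - s' * η 1 - s * η 2) := by
  rw [Matrix.det_succ_column_zero]
  simp [MU, cq, Fin.sum_univ_succ, Matrix.det_succ_row_zero, Fin.succAbove]
  ring

theorem det211 (s s' : ℝ) :
    (MU ξ η ![0, 0, 1, 1] ![1, 1, 0, 2] ![1, 1, 1, 1] ![1, -1, s, s']).det =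
      -(2 * (s * s' * ξ 1 - s' * η 0 - s * η 2)) := by
  rw [Matrix.det_succ_column_zero]
  simp [MU, cq, Fin.sum_univ_succ, Matrix.det_succ_row_zero, Fin.succAbove]
  ring

theorem det212 (s s' : ℝ) :
    (MU ξ η ![0, 0, 1, 1] ![2, 2, 0, 1] ![1, 1, 1, 1] ![1, -1, s, s']).det =
      2 * (s * s' * ξ 1 - s' * η 0 - s * η 1) := by
  rw [Matrix.det_succ_column_zero]
  simp [MU, cq, Fin.sum_univ_succ, Matrix.det_succ_row_zero, Fin.succAbove]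
  ring

theorem det30 : (MU ξ η ![0, 0, 1, 0] ![1, 1, 1, 2] ![1, 1, 1, 1] ![1, -1, 1, 1]).det =
    2 * η 0 := by
  rw [Matrix.det_succ_column_zero]
  simp [MU, cq, Fin.sum_univ_succ, Matrix.det_succ_row_zero, Fin.succAbove]
  ring

theorem det31 : (MU ξ η ![0, 0, 1, 0] ![0, 0, 0, 2] ![1, 1, 1, 1] ![1, -1, 1, 1]).det =
    -(2 * η 1) := by
  rw [Matrix.det_succ_column_zero]
  simp [MU, cq, Fin.sum_univ_succ, Matrix.det_succ_row_zero, Fin.succAbove]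
  ring

theorem det32 : (MU ξ η ![0, 0, 1, 0] ![0, 0, 0, 1] ![1, 1, 1, 1] ![1, -1, 1, 1]).det =
    2 * η 2 := by
  rw [Matrix.det_succ_column_zero]
  simp [MU, cq, Fin.sum_univ_succ, Matrix.det_succ_row_zero, Fin.succAbove]
  ring

theorem det40 : (MU ξ η ![1, 1, 1, 1] ![0, 0, 1, 2] ![1, 1, 1, 1] ![1, -1, 1, 1]).det =
    -(2 * ξ 0) := by
  rw [Matrix.det_succ_column_zero]
  simp [MU, cq, Fin.sum_univ_succ, Matrix.det_succ_row_zero, Fin.succAbove]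
  ring

theorem det41 : (MU ξ η ![0, 0, 0, 0] ![0, 0, 1, 2] ![1, 1, 1, 1] ![1, -1, 1, 1]).det =
    2 * ξ 1 := by
  rw [Matrix.det_succ_column_zero]
  simp [MU, cq, Fin.sum_univ_succ, Matrix.det_succ_row_zero, Fin.succAbove]
  ring

theorem det5 : (MU ξ η ![0, 0, 0, 1] ![0, 1, 2, 0] ![1, 1, 1, 1] ![1, 1, 1, 1]).det =
    -(ξ 0 + ξ 1 - η 0 - η 1 - η 2) := by
  rw [Matrix.det_succ_column_zero]
  simp [MU, cq, Fin.sum_univ_succ, Matrix.det_succ_row_zero, Fin.succAbove]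
  ring

end Dets

theorem one4 : ∀ j : Fin 4, (![1, 1, 1, 1] : Fin 4 → ℝ) j = 1 ∨
    (![1, 1, 1, 1] : Fin 4 → ℝ) j = -1 := by
  intro j
  fin_cases j <;> simp

theorem sg4 (a b c d : ℝ) (ha : a = 1 ∨ a = -1) (hb : b = 1 ∨ b = -1) (hc : c = 1 ∨ c = -1)
    (hd : d = 1 ∨ d = -1) : ∀ j : Fin 4, (![a, b, c, d] : Fin 4 → ℝ) j = 1 ∨
    (![a, b, c, d] : Fin 4 → ℝ) j = -1 := by
  intro j
  fin_cases j
  · exact ha
  · exact hb
  · exact hc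
  · exact hd

theorem three (x y z : ℝ) (h : ∀ s s' : ℝ, (s = 1 ∨ s = -1) → (s' = 1 ∨ s' = -1) →
    |2 * (s * s' * x - s' * y - s * z)| ≤ 4) : |x| + |y| + |z| ≤ 2 := by
  have h1 := abs_le.1 (h 1 1 (Or.inl rfl) (Or.inl rfl))
  have h2 := abs_le.1 (h 1 (-1) (Or.inl rfl) (Or.inr rfl))
  have h3 := abs_le.1 (h (-1) 1 (Or.inr rfl) (Or.inl rfl))
  have h4 := abs_le.1 (h (-1) (-1) (Or.inr rfl) (Or.inr rfl))
  rcases abs_cases x with ⟨e1, _⟩ | ⟨e1, _⟩ <;> rcases abs_cases y with ⟨e2, _⟩ | ⟨e2, _⟩ <;>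
    rcases abs_cases z with ⟨e3, _⟩ | ⟨e3, _⟩ <;> rw [e1, e2, e3] <;>
    linarith [h1.1, h1.2, h2.1, h2.2, h3.1, h3.2, h4.1, h4.2]

theorem a (hL : S_LIN) (h1 : S_AB1) : S_AB2A := by
  intro R S t f v κ hC w ξ η hw hq
  have hm := h1 R S t f v κ hC
  have K := keyA hL f v κ w ξ η hw hm hq
  have p1 : (1 : ℝ) = 1 ∨ (1 : ℝ) = -1 := Or.inl rfl
  have p2 : (-1 : ℝ) = 1 ∨ (-1 : ℝ) = -1 := Or.inr rfl
  have T : ∀ (i j k : Fin 3) (a : Fin 2), i ≠ k → |ξ a| + |η i| + |η k| ≤ 2 →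
      |ξ a| + |η k| + |η i| ≤ 2 := by
    intro i j k a _ h
    linarith
  have a01 : |ξ 0| + |η 0| + |η 1| ≤ 2 := by
    refine three _ _ _ fun s s' hs hs' => ?_
    have h2 := K ![1, 1, 0, 0] ![2, 2, 0, 1] ![1, 1, 1, 1] ![1, -1, s, s'] one4
      (sg4 _ _ _ _ p1 p2 hs hs')
    rwa [det202, abs_neg] at h2
  have a02 : |ξ 0| + |η 0| + |η 2| ≤ 2 := by
    refine three _ _ _ fun s s' hs hs' => ?_
    have h2 := K ![1, 1, 0, 0] ![1, 1, 0, 2] ![1, 1, 1, 1] ![1, -1, s, s'] one4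
      (sg4 _ _ _ _ p1 p2 hs hs')
    rwa [det201] at h2
  have a12 : |ξ 0| + |η 1| + |η 2| ≤ 2 := by
    refine three _ _ _ fun s s' hs hs' => ?_
    have h2 := K ![1, 1, 0, 0] ![0, 0, 1, 2] ![1, 1, 1, 1] ![1, -1, s, s'] one4
      (sg4 _ _ _ _ p1 p2 hs hs')
    rwa [det200, abs_neg] at h2
  have b01 : |ξ 1| + |η 0| + |η 1| ≤ 2 := by
    refine three _ _ _ fun s s' hs hs' => ?_
    have h2 := K ![0, 0, 1, 1] ![2, 2, 0, 1] ![1, 1, 1, 1] ![1, -1, s, s'] one4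
      (sg4 _ _ _ _ p1 p2 hs hs')
    rwa [det212] at h2
  have b02 : |ξ 1| + |η 0| + |η 2| ≤ 2 := by
    refine three _ _ _ fun s s' hs hs' => ?_
    have h2 := K ![0, 0, 1, 1] ![1, 1, 0, 2] ![1, 1, 1, 1] ![1, -1, s, s'] one4
      (sg4 _ _ _ _ p1 p2 hs hs')
    rwa [det211, abs_neg] at h2
  have b12 : |ξ 1| + |η 1| + |η 2| ≤ 2 := by
    refine three _ _ _ fun s s' hs hs' => ?_
    have h2 := K ![0, 0, 1, 1] ![0, 0, 1, 2] ![1, 1, 1, 1] ![1, -1, s, s'] one4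
      (sg4 _ _ _ _ p1 p2 hs hs')
    rwa [det210] at h2
  constructor
  · intro k
    fin_cases k
    · have h2 := K ![0, 0, 1, 1] ![1, 1, 2, 2] ![1, 1, 1, 1] ![1, -1, 1, -1] one4
        (sg4 _ _ _ _ p1 p2 p1 p2)
      rw [det10, abs_mul] at h2
      norm_num at h2
      show |η 0| ≤ 1
      linarith
    · have h2 := K ![0, 0, 1, 1] ![0, 0, 2, 2] ![1, 1, 1, 1] ![1, -1, 1, -1] one4
        (sg4 _ _ _ _ p1 p2 p1 p2)
      rw [det11, abs_mul] at h2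
      norm_num at h2
      show |η 1| ≤ 1
      linarith
    · have h2 := K ![0, 0, 1, 1] ![0, 0, 1, 1] ![1, 1, 1, 1] ![1, -1, 1, -1] one4
        (sg4 _ _ _ _ p1 p2 p1 p2)
      rw [det12, abs_mul] at h2
      norm_num at h2
      show |η 2| ≤ 1
      linarith
  · intro a i k hik
    fin_cases a <;> fin_cases i <;> fin_cases k
    · exact absurd rfl hik
    · exact a01
    · exact a02
    · show |ξ 0| + |η 1| + |η 0| ≤ 2
      linarith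
    · exact absurd rfl hik
    · exact a12
    · show |ξ 0| + |η 2| + |η 0| ≤ 2
      linarith
    · show |ξ 0| + |η 2| + |η 1| ≤ 2
      linarith
    · exact absurd rfl hik
    · exact absurd rfl hik
    · exact b01
    · exact b02
    · show |ξ 1| + |η 1| + |η 0| ≤ 2
      linarith
    · exact absurd rfl hik
    · exact b12
    · show |ξ 1| + |η 2| + |η 0| ≤ 2
      linarith
    · show |ξ 1| + |η 2| + |η 1| ≤ 2
      linarith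
    · exact absurd rfl hik

theorem b (hL : S_LIN) (h1 : S_AB1) : S_AB2B := by
  intro R S t f v κ hC w ξ η hw hq
  have hm := h1 R S t f v κ hC
  have K := keyB hL f v κ w ξ η hw hm hq
  have p1 : (1 : ℝ) = 1 ∨ (1 : ℝ) = -1 := Or.inl rfl
  have p2 : (-1 : ℝ) = 1 ∨ (-1 : ℝ) = -1 := Or.inr rfl
  have sgn := sg4 _ _ _ _ p1 p2 p1 p1
  obtain ⟨n0, e0⟩ := K ![0, 0, 1, 0] ![1, 1, 1, 2] ![1, 1, 1, 1] ![1, -1, 1, 1] one4 sgn
  obtain ⟨n1, e1⟩ := K ![0, 0, 1, 0] ![0, 0, 0, 2] ![1, 1, 1, 1] ![1, -1, 1, 1] one4 sgn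
  obtain ⟨n2, e2⟩ := K ![0, 0, 1, 0] ![0, 0, 0, 1] ![1, 1, 1, 1] ![1, -1, 1, 1] one4 sgn
  obtain ⟨m0, g0⟩ := K ![1, 1, 1, 1] ![0, 0, 1, 2] ![1, 1, 1, 1] ![1, -1, 1, 1] one4 sgn
  obtain ⟨m1, g1⟩ := K ![0, 0, 0, 0] ![0, 0, 1, 2] ![1, 1, 1, 1] ![1, -1, 1, 1] one4 sgn
  obtain ⟨l, hl⟩ := K ![0, 0, 0, 1] ![0, 1, 2, 0] ![1, 1, 1, 1] ![1, 1, 1, 1] one4 one4
  rw [det30] at e0
  rw [det31] at e1
  rw [det32] at e2
  rw [det40] at g0
  rw [det41] at g1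
  rw [det5] at hl
  have f0 : η 0 = ((n0 : ℤ) : ℝ) := by linarith
  have f1 : η 1 = ((-n1 : ℤ) : ℝ) := by push_cast; linarith
  have f2 : η 2 = ((n2 : ℤ) : ℝ) := by linarith
  refine ⟨?_, ?_, ?_⟩
  · intro a
    fin_cases a
    · exact ⟨-m0, by show ξ 0 = _; push_cast; linarith⟩
    · exact ⟨m1, by show ξ 1 = _; linarith⟩
  · intro k
    fin_cases k
    · exact ⟨n0, f0⟩
    · exact ⟨-n1, f1⟩
    · exact ⟨n2, f2⟩
  · refine ⟨-l + n0 - n1 + n2, ?_⟩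
    push_cast at f1 ⊢
    linarith

end Pool.Agent.W351.SH
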